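import Mathlib

set_option autoImplicit false

/-!
# Best-response paths of exponential length in budgeted sharing games

There are budgeted sharing games with `n` agents and `m` sites, `n + m` arbitrarily large, which have
best-response paths of length at least `2 ^ (c (n + m))`, for a constant `c > 0`.

The agents are the gates of a circuit of NAND gates with feedback-free wiring. Gate `v` has a private
site of rate `(7/5) 8^(-v)` whose cost is the whole budget, and two cheap sites of rate `8^(-v)`, each
of which it shares with one of its two inputs. Serving all its cheap sites (`in`) is the best response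
of `v` if at most one of its two inputs is `in`, and the private site is the best response if both
inputs are `in`, whatever the later gates do. So every update of a gate which has the wrong value is a
best-response move. Six gates per level double the number of updates.
-/

namespace Pool.Agent.Results.MP_2a1065_lc.ExponentialPaths

open Finset

/-- An instance of the budgeted sharing game: agents `U`, sites `H`, `interested i j` says that agent
`j` is interested in site `i`; query rates, costs and budgets are positive. -/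
structure Game (U H : Type) where
  interested : H → U → Prop
  rate : H → ℝ
  cost : H → ℝ
  budget : U → ℝ
  rate_pos : ∀ i, 0 < rate i
  cost_pos : ∀ i, 0 < cost i
  budget_pos : ∀ j, 0 < budget j

section defs

variable {U H : Type} [Fintype U] [DecidableEq U] [Fintype H] [DecidableEq H]

/-- The feasible strategies of agent `j`. -/
def Game.Feasible (G : Game U H) (j : U) (s : Finset H) : Prop :=
  (∀ i ∈ s, G.interested i j) ∧ ∑ i ∈ s, G.cost i ≤ G.budget j

/-- The number of agents that serve site `i` in the state `S`. -/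
def load (S : U → Finset H) (i : H) : ℕ := (univ.filter fun j => i ∈ S j).card

/-- What agent `j` receives in the state `S`. -/
noncomputable def Game.payoff (G : Game U H) (S : U → Finset H) (j : U) : ℝ :=
  ∑ i ∈ S j, G.rate i / load S i

/-- `S'` arises from `S` by a (strictly improving) best-response move of some agent `j`. -/
def Game.Move (G : Game U H) (S S' : U → Finset H) : Prop :=
  ∃ j, (∀ k, k ≠ j → S' k = S k) ∧ G.Feasible j (S' j) ∧
    (∀ s, G.Feasible j s → G.payoff (Function.update S j s) j ≤ G.payoff S' j) ∧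
    G.payoff S j < G.payoff S' j

/-- `S 0, ..., S L` is a best-response path of length `L`. -/
def Game.IsPath (G : Game U H) (L : ℕ) (S : ℕ → U → Finset H) : Prop :=
  (∀ l ≤ L, ∀ j, G.Feasible j (S l j)) ∧ ∀ l < L, G.Move (S l) (S (l + 1))

end defs

section circuit

/-- the inputs of gate `v` -/
def off (r : ℕ) (s : Bool) : ℕ :=
  match r, s with
  | 0, false => 4
  | 0, true => 1
  | 1, _ => 1
  | 2, false => 2
  | 2, true => 1
  | 3, _ => 3
  | 4, _ => 3
  | 5, false => 2
  | 5, true => 1
  | _, _ => 1

def inp (v : ℕ) (s : Bool) : ℕ := v - off (v % 6) s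

theorem off_pos (r : ℕ) (s : Bool) : 1 ≤ off r s := by
  unfold off
  split <;> omega

theorem inp_lt {v : ℕ} (hv : 1 ≤ v) (s : Bool) : inp v s < v := by
  have := off_pos (v % 6) s
  unfold inp
  omega

theorem inp_zero (s : Bool) : inp 0 s = 0 := by
  unfold inp
  omega

theorem inp1 (i : ℕ) (s : Bool) : inp (6 * i + 1) s = 6 * i := by
  have h : (6 * i + 1) % 6 = 1 := by omega
  unfold inp
  rw [h]
  cases s <;> simp [off]

theorem inp2 (i : ℕ) (s : Bool) : inp (6 * i + 2) s = if s then 6 * i + 1 else 6 * i := by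
  have h : (6 * i + 2) % 6 = 2 := by omega
  unfold inp
  rw [h]
  cases s <;> simp [off]

theorem inp3 (i : ℕ) (s : Bool) : inp (6 * i + 3) s = 6 * i := by
  have h : (6 * i + 3) % 6 = 3 := by omega
  unfold inp
  rw [h]
  cases s <;> simp [off]

theorem inp4 (i : ℕ) (s : Bool) : inp (6 * i + 4) s = 6 * i + 1 := by
  have h : (6 * i + 4) % 6 = 4 := by omega
  unfold inp
  rw [h]
  cases s <;> simp [off]

theorem inp5 (i : ℕ) (s : Bool) : inp (6 * i + 5) s = if s then 6 * i + 4 else 6 * i + 3 := by
  have h : (6 * i + 5) % 6 = 5 := by omega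
  unfold inp
  rw [h]
  cases s <;> simp [off]

theorem inp6 (i : ℕ) (s : Bool) : inp (6 * i + 6) s = if s then 6 * i + 5 else 6 * i + 2 := by
  have h : (6 * i + 6) % 6 = 0 := by omega
  unfold inp
  rw [h]
  cases s <;> simp [off]

/-- the value which gate `v` computes from its inputs -/
def tgt (b : ℕ → Bool) (v : ℕ) : Bool := !(b (inp v false) && b (inp v true))

/-- update of a gate with the wrong value -/
def Step (n : ℕ) (b b' : ℕ → Bool) : Prop :=
  ∃ v, 1 ≤ v ∧ v < n ∧ b v ≠ tgt b v ∧ b' = Function.update b v (tgt b v)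

inductive Path (n : ℕ) : ℕ → (ℕ → Bool) → (ℕ → Bool) → Prop
  | nil (b : ℕ → Bool) : Path n 0 b b
  | cons {l : ℕ} {b b' b'' : ℕ → Bool} : Path n l b b' → Step n b' b'' → Path n (l + 1) b b''

theorem Path.trans {n l l' : ℕ} {b b' b'' : ℕ → Bool} (h : Path n l b b') (h' : Path n l' b' b'') :
    Path n (l + l') b b'' := by
  induction h' with
  | nil => exact h
  | cons _ hs ih => exact (ih h).cons hs

theorem Path.exists_seq {n l : ℕ} {b b' : ℕ → Bool} (h : Path n l b b') :
    ∃ β : ℕ → ℕ → Bool, β l = b' ∧ ∀ k < l, Step n (β k) (β (k + 1)) := by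
  induction h with
  | nil b => exact ⟨fun _ => b, rfl, fun k hk => absurd hk (Nat.not_lt_zero k)⟩
  | @cons l b b' b'' _ hs ih =>
    obtain ⟨β, h1, h2⟩ := ih
    refine ⟨fun k => if k ≤ l then β k else b'', by simp, fun k hk => ?_⟩
    rcases Nat.lt_or_ge k l with hkl | hkl
    · have h3 : k ≤ l := by omega
      have h4 : k + 1 ≤ l := by omega
      simp only [h3, h4, if_true]
      exact h2 k hkl
    · have h3 : k = l := by omega
      subst h3
      simp only [le_refl, if_true]
      rw [if_neg (by omega), h1]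
      exact hs

/-- the values of the gates after gate `6 i`, when everything has settled -/
def Good : ℕ → ℕ → Bool → (ℕ → Bool) → Prop
  | 0, _, _, _ => True
  | d + 1, i, s, b => b (6 * i + 1) = !s ∧ b (6 * i + 2) = true ∧ b (6 * i + 3) = !s ∧
      b (6 * i + 4) = s ∧ b (6 * i + 5) = true ∧ b (6 * i + 6) = false ∧ Good d (i + 1) false b

theorem Good.congr {d : ℕ} : ∀ {i : ℕ} {s : Bool} {b b' : ℕ → Bool}, Good d i s b →
    (∀ v, 6 * i < v → b' v = b v) → Good d i s b' := by
  induction d with
  | zero => intro i s b b' _ _; exact trivial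
  | succ d ih =>
    intro i s b b' h h'
    obtain ⟨h1, h2, h3, h4, h5, h6, h7⟩ := h
    refine ⟨?_, ?_, ?_, ?_, ?_, ?_, ih h7 fun v hv => h' v (by omega)⟩
    all_goals rw [h' _ (by omega)]; assumption

theorem step_of {n : ℕ} {c : ℕ → Bool} {v : ℕ} {x : Bool} (h1 : 1 ≤ v) (h2 : v < n)
    (h3 : tgt c v = x) (h4 : c v ≠ x) : Path n 1 c (Function.update c v x) := by
  have : Step n c (Function.update c v x) := by
    refine ⟨v, h1, h2, ?_, ?_⟩
    · rw [h3]; exact h4
    · rw [h3]
  exact (Path.nil c).cons this

theorem run {n : ℕ} (d : ℕ) : ∀ (i : ℕ) (s : Bool) (b : ℕ → Bool), 6 * (i + d) < n → b (6 * i) = s →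
    Good d i (!s) b → ∃ L b', 2 ^ d ≤ L + 1 ∧ Path n L b b' ∧ (∀ v ≤ 6 * i, b' v = b v) ∧
      Good d i s b' := by
  induction d with
  | zero =>
    intro i s b _ _ _
    exact ⟨0, b, by simp, Path.nil b, fun _ _ => rfl, trivial⟩
  | succ d ih =>
    intro i s b hn hs hg
    obtain ⟨h1, h2, h3, h4, h5, h6, h7⟩ := hg
    have hx : 6 * (i + 1) = 6 * i + 6 := by ring
    cases s with
    | true =>
      simp only [Bool.not_true, Bool.not_false] at h1 h3 h4
      -- a := 0, x' := 1
      let c1 := Function.update b (6 * i + 2) false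
      have p1 : Path n 1 b c1 := step_of (by omega) (by omega)
        (by simp [tgt, inp2, hs, h1]) (by simp [h2])
      let c2 := Function.update c1 (6 * i + 6) true
      have p2 : Path n 1 c1 c2 := step_of (by omega) (by omega)
        (by simp [tgt, inp6, c1]) (by simp [c1, h6])
      obtain ⟨L1, c3, l1, p3, e3, g3⟩ := ih (i + 1) true c2 (by omega) (by rw [hx]; simp [c2])
        (h7.congr fun v hv => by
          have n1 : v ≠ 6 * i + 2 := by omega
          have n2 : v ≠ 6 * i + 6 := by omega
          simp [c2, c1, n1, n2])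
      have q0 : c3 (6 * i) = true := by rw [e3 _ (by omega)]; simp [c2, c1, hs]
      have q1 : c3 (6 * i + 1) = true := by rw [e3 _ (by omega)]; simp [c2, c1, h1]
      have q2 : c3 (6 * i + 2) = false := by rw [e3 _ (by omega)]; simp [c2, c1]
      have q3 : c3 (6 * i + 3) = true := by rw [e3 _ (by omega)]; simp [c2, c1, h3]
      have q4 : c3 (6 * i + 4) = false := by rw [e3 _ (by omega)]; simp [c2, c1, h4]
      have q5 : c3 (6 * i + 5) = true := by rw [e3 _ (by omega)]; simp [c2, c1, h5]
      have q6 : c3 (6 * i + 6) = true := by rw [e3 _ (by omega)]; simp [c2]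
      let c4 := Function.update c3 (6 * i + 3) false
      have p4 : Path n 1 c3 c4 := step_of (by omega) (by omega)
        (by simp [tgt, inp3, q0]) (by simp [q3])
      let c5 := Function.update c4 (6 * i + 1) false
      have p5 : Path n 1 c4 c5 := step_of (by omega) (by omega)
        (by simp [tgt, inp1, c4, q0]) (by simp [c4, q1])
      let c6 := Function.update c5 (6 * i + 2) true
      have p6 : Path n 1 c5 c6 := step_of (by omega) (by omega)
        (by simp [tgt, inp2, c5, c4]) (by simp [c5, c4, q2])
      let c7 := Function.update c6 (6 * i + 4) true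
      have p7 : Path n 1 c6 c7 := step_of (by omega) (by omega)
        (by simp [tgt, inp4, c6, c5]) (by simp [c6, c5, c4, q4])
      let c8 := Function.update c7 (6 * i + 6) false
      have p8 : Path n 1 c7 c8 := step_of (by omega) (by omega)
        (by simp [tgt, inp6, c7, c6, c5, c4, q5]) (by simp [c7, c6, c5, c4, q6])
      obtain ⟨L2, c9, l2, p9, e9, g9⟩ := ih (i + 1) false c8 (by omega) (by rw [hx]; simp [c8])
        (g3.congr fun v hv => by
          have n1 : v ≠ 6 * i + 1 := by omega
          have n2 : v ≠ 6 * i + 2 := by omega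
          have n3 : v ≠ 6 * i + 3 := by omega
          have n4 : v ≠ 6 * i + 4 := by omega
          have n6 : v ≠ 6 * i + 6 := by omega
          simp [c8, c7, c6, c5, c4, n1, n2, n3, n4, n6])
      refine ⟨1 + 1 + L1 + 1 + 1 + 1 + 1 + 1 + L2, c9, by rw [pow_succ]; omega,
        (((((((p1.trans p2).trans p3).trans p4).trans p5).trans p6).trans p7).trans p8).trans p9,
        fun v hv => ?_, ?_⟩
      · rw [e9 _ (by omega)]
        have n1 : v ≠ 6 * i + 1 := by omega
        have n2 : v ≠ 6 * i + 2 := by omega
        have n3 : v ≠ 6 * i + 3 := by omega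
        have n4 : v ≠ 6 * i + 4 := by omega
        have n6 : v ≠ 6 * i + 6 := by omega
        simp only [c8, c7, c6, c5, c4, Function.update_of_ne n1, Function.update_of_ne n2,
          Function.update_of_ne n3, Function.update_of_ne n4, Function.update_of_ne n6]
        rw [e3 _ (by omega)]
        simp [c2, c1, n2, n6]
      · refine ⟨?_, ?_, ?_, ?_, ?_, ?_, g9⟩
        · rw [e9 _ (by omega)]; simp [c8, c7, c6, c5]
        · rw [e9 _ (by omega)]; simp [c8, c7, c6]
        · rw [e9 _ (by omega)]; simp [c8, c7, c6, c5, c4]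
        · rw [e9 _ (by omega)]; simp [c8, c7]
        · rw [e9 _ (by omega)]; simp [c8, c7, c6, c5, c4, q5]
        · rw [e9 _ (by omega)]; simp [c8]
    | false =>
      simp only [Bool.not_true, Bool.not_false] at h1 h3 h4
      let c1 := Function.update b (6 * i + 3) true
      have p1 : Path n 1 b c1 := step_of (by omega) (by omega)
        (by simp [tgt, inp3, hs]) (by simp [h3])
      let c1' := Function.update c1 (6 * i + 5) false
      have p1' : Path n 1 c1 c1' := step_of (by omega) (by omega)
        (by simp [tgt, inp5, c1, h4]) (by simp [c1, h5])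
      let c2 := Function.update c1' (6 * i + 6) true
      have p2 : Path n 1 c1' c2 := step_of (by omega) (by omega)
        (by simp [tgt, inp6, c1']) (by simp [c1', c1, h6])
      obtain ⟨L1, c3, l1, p3, e3, g3⟩ := ih (i + 1) true c2 (by omega) (by rw [hx]; simp [c2])
        (h7.congr fun v hv => by
          have n1 : v ≠ 6 * i + 3 := by omega
          have n5 : v ≠ 6 * i + 5 := by omega
          have n2 : v ≠ 6 * i + 6 := by omega
          simp [c2, c1', c1, n1, n2, n5])
      have q0 : c3 (6 * i) = false := by rw [e3 _ (by omega)]; simp [c2, c1', c1, hs]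
      have q1 : c3 (6 * i + 1) = false := by rw [e3 _ (by omega)]; simp [c2, c1', c1, h1]
      have q2 : c3 (6 * i + 2) = true := by rw [e3 _ (by omega)]; simp [c2, c1', c1, h2]
      have q3 : c3 (6 * i + 3) = true := by rw [e3 _ (by omega)]; simp [c2, c1', c1]
      have q4 : c3 (6 * i + 4) = true := by rw [e3 _ (by omega)]; simp [c2, c1', c1, h4]
      have q5 : c3 (6 * i + 5) = false := by rw [e3 _ (by omega)]; simp [c2, c1']
      have q6 : c3 (6 * i + 6) = true := by rw [e3 _ (by omega)]; simp [c2]
      let c4 := Function.update c3 (6 * i + 1) true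
      have p4 : Path n 1 c3 c4 := step_of (by omega) (by omega)
        (by simp [tgt, inp1, q0]) (by simp [q1])
      let c5 := Function.update c4 (6 * i + 4) false
      have p5 : Path n 1 c4 c5 := step_of (by omega) (by omega)
        (by simp [tgt, inp4, c4]) (by simp [c4, q4])
      let c6 := Function.update c5 (6 * i + 5) true
      have p6 : Path n 1 c5 c6 := step_of (by omega) (by omega)
        (by simp [tgt, inp5, c5]) (by simp [c5, c4, q5])
      let c8 := Function.update c6 (6 * i + 6) false
      have p8 : Path n 1 c6 c8 := step_of (by omega) (by omega)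
        (by simp [tgt, inp6, c6, c5, c4, q2]) (by simp [c6, c5, c4, q6])
      obtain ⟨L2, c9, l2, p9, e9, g9⟩ := ih (i + 1) false c8 (by omega) (by rw [hx]; simp [c8])
        (g3.congr fun v hv => by
          have n1 : v ≠ 6 * i + 1 := by omega
          have n4 : v ≠ 6 * i + 4 := by omega
          have n5 : v ≠ 6 * i + 5 := by omega
          have n6 : v ≠ 6 * i + 6 := by omega
          simp [c8, c6, c5, c4, n1, n4, n5, n6])
      refine ⟨1 + 1 + 1 + L1 + 1 + 1 + 1 + 1 + L2, c9, by rw [pow_succ]; omega,
        (((((((p1.trans p1').trans p2).trans p3).trans p4).trans p5).trans p6).trans p8).trans p9,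
        fun v hv => ?_, ?_⟩
      · rw [e9 _ (by omega)]
        have n1 : v ≠ 6 * i + 1 := by omega
        have n3 : v ≠ 6 * i + 3 := by omega
        have n4 : v ≠ 6 * i + 4 := by omega
        have n5 : v ≠ 6 * i + 5 := by omega
        have n6 : v ≠ 6 * i + 6 := by omega
        simp only [c8, c6, c5, c4, Function.update_of_ne n1,
          Function.update_of_ne n4, Function.update_of_ne n5, Function.update_of_ne n6]
        rw [e3 _ (by omega)]
        simp [c2, c1', c1, n3, n5, n6]
      · refine ⟨?_, ?_, ?_, ?_, ?_, ?_, g9⟩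
        · rw [e9 _ (by omega)]; simp [c8, c6, c5, c4]
        · rw [e9 _ (by omega)]; simp [c8, c6, c5, c4, q2]
        · rw [e9 _ (by omega)]; simp [c8, c6, c5, c4, q3]
        · rw [e9 _ (by omega)]; simp [c8, c6, c5]
        · rw [e9 _ (by omega)]; simp [c8, c6]
        · rw [e9 _ (by omega)]; simp [c8]

theorem exists_good (d : ℕ) : ∀ (i : ℕ) (s : Bool) (b : ℕ → Bool), ∃ b' : ℕ → Bool,
    (∀ v ≤ 6 * i, b' v = b v) ∧ Good d i s b' := by
  induction d with
  | zero => intro i s b; exact ⟨b, fun _ _ => rfl, trivial⟩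
  | succ d ih =>
    intro i s b
    let c : ℕ → Bool := fun v =>
      if v = 6 * i + 1 then !s else if v = 6 * i + 2 then true else if v = 6 * i + 3 then !s
      else if v = 6 * i + 4 then s else if v = 6 * i + 5 then true else if v = 6 * i + 6 then false
      else b v
    obtain ⟨b', h1, h2⟩ := ih (i + 1) false c
    refine ⟨b', fun v hv => ?_, ?_, ?_, ?_, ?_, ?_, ?_, h2⟩
    · rw [h1 v (by omega)]
      simp only [c]
      rw [if_neg (by omega), if_neg (by omega), if_neg (by omega), if_neg (by omega),
        if_neg (by omega), if_neg (by omega)]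
    all_goals rw [h1 _ (by omega)]; simp [c]

end circuit

section game

/-- The game of the circuit with `n` gates. -/
noncomputable def circuitGame (n : ℕ) (hn : 0 < n) : Game (Fin n) (Fin n ⊕ (Fin n × Bool)) where
  interested i j :=
    Sum.elim (fun v : Fin n => v = j) (fun p : Fin n × Bool => p.1 = j ∨ inp p.1 p.2 = (j : ℕ)) i
  rate i := Sum.elim (fun v : Fin n => 7 / 5 * (1 / 8 : ℝ) ^ (v : ℕ))
    (fun p : Fin n × Bool => (1 / 8 : ℝ) ^ (p.1 : ℕ)) i
  cost i := Sum.elim (fun _ : Fin n => 1) (fun _ : Fin n × Bool => 1 / (2 * (n : ℝ))) i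
  budget _ := 1
  rate_pos i := by
    rcases i with v | p
    · simp only [Sum.elim_inl]; positivity
    · simp only [Sum.elim_inr]; positivity
  cost_pos i := by
    have : (0 : ℝ) < n := by exact_mod_cast hn
    rcases i with v | p
    · simp only [Sum.elim_inl]; positivity
    · simp only [Sum.elim_inr]; positivity
  budget_pos _ := one_pos

/-- the cheap sites of gate `v` -/
def slots {n : ℕ} (v : Fin n) : Finset (Fin n ⊕ (Fin n × Bool)) :=
  (univ.filter fun p : Fin n × Bool => p.1 = v ∨ inp p.1 p.2 = (v : ℕ)).map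
    ⟨Sum.inr, Sum.inr_injective⟩

/-- the state of the game given by the values of the gates -/
def st {n : ℕ} (b : ℕ → Bool) (v : Fin n) : Finset (Fin n ⊕ (Fin n × Bool)) :=
  if b v then slots v else {Sum.inl v}

theorem mem_slots {n : ℕ} (v : Fin n) (p : Fin n × Bool) :
    Sum.inr p ∈ slots v ↔ p.1 = v ∨ inp p.1 p.2 = (v : ℕ) := by
  simp [slots]

theorem inl_notMem {n : ℕ} (v u : Fin n) : Sum.inl u ∉ slots v := by
  simp [slots]

/-- the number of other agents serving a site -/
def oth {n : ℕ} (S : Fin n → Finset (Fin n ⊕ (Fin n × Bool))) (v : Fin n)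
    (i : Fin n ⊕ (Fin n × Bool)) : ℕ := (univ.filter fun j => j ≠ v ∧ i ∈ S j).card

theorem load_update {n : ℕ} (S : Fin n → Finset (Fin n ⊕ (Fin n × Bool))) (v : Fin n)
    (s : Finset (Fin n ⊕ (Fin n × Bool))) {i : Fin n ⊕ (Fin n × Bool)} (hi : i ∈ s) :
    load (Function.update S v s) i = oth S v i + 1 := by
  unfold load oth
  have : (univ.filter fun j => i ∈ Function.update S v s j) =
      insert v (univ.filter fun j => j ≠ v ∧ i ∈ S j) := by
    ext j
    simp only [mem_filter, mem_univ, true_and, mem_insert]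
    by_cases h : j = v
    · subst h; simp [hi]
    · simp [h]
  rw [this, card_insert_of_notMem (by simp)]

theorem payoff_update {n : ℕ} (hn : 0 < n) (S : Fin n → Finset (Fin n ⊕ (Fin n × Bool))) (v : Fin n)
    (s : Finset (Fin n ⊕ (Fin n × Bool))) :
    (circuitGame n hn).payoff (Function.update S v s) v =
      ∑ i ∈ s, (circuitGame n hn).rate i / ((oth S v i : ℝ) + 1) := by
  unfold Game.payoff
  rw [Function.update_self]
  refine sum_congr rfl fun i hi => ?_
  rw [load_update S v s hi]
  push_cast
  rfl

theorem feasible_inl {n : ℕ} (hn : 0 < n) (v : Fin n) :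
    (circuitGame n hn).Feasible v {Sum.inl v} := by
  constructor
  · intro i hi
    rw [mem_singleton] at hi
    subst hi
    rfl
  · rw [sum_singleton]
    exact le_refl _

theorem feasible_slots {n : ℕ} (hn : 0 < n) (v : Fin n) :
    (circuitGame n hn).Feasible v (slots v) := by
  constructor
  · intro i hi
    rcases i with u | p
    · exact absurd hi (inl_notMem v u)
    · exact (mem_slots v p).1 hi
  · have h0 : (0 : ℝ) < n := by exact_mod_cast hn
    unfold slots
    rw [sum_map]
    have h1 : ∀ p ∈ univ.filter (fun p : Fin n × Bool => p.1 = v ∨ inp p.1 p.2 = (v : ℕ)),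
        (circuitGame n hn).cost ((⟨Sum.inr, Sum.inr_injective⟩ : (Fin n × Bool) ↪ _) p) =
          1 / (2 * (n : ℝ)) := fun p _ => rfl
    rw [sum_congr rfl h1, sum_const, nsmul_eq_mul]
    have h2 : ((univ.filter (fun p : Fin n × Bool => p.1 = v ∨ inp p.1 p.2 = (v : ℕ))).card : ℝ) ≤
        2 * n := by
      have := card_filter_le (univ : Finset (Fin n × Bool))
        (fun p : Fin n × Bool => p.1 = v ∨ inp p.1 p.2 = (v : ℕ))
      rw [card_univ, Fintype.card_prod, Fintype.card_fin, Fintype.card_bool] at this
      have h3 : ((univ.filter (fun p : Fin n × Bool => p.1 = v ∨ inp p.1 p.2 = (v : ℕ))).card : ℝ)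
          ≤ ((n * 2 : ℕ) : ℝ) := by exact_mod_cast this
      push_cast at h3
      linarith
    calc _ ≤ (2 * (n : ℝ)) * (1 / (2 * (n : ℝ))) :=
          mul_le_mul_of_nonneg_right h2 (by positivity)
      _ = 1 := by field_simp

theorem feasible_cases {n : ℕ} (hn : 0 < n) (v : Fin n) (s : Finset (Fin n ⊕ (Fin n × Bool)))
    (hs : (circuitGame n hn).Feasible v s) : s = {Sum.inl v} ∨ s ⊆ slots v := by
  obtain ⟨h1, h2⟩ := hs
  by_cases h : Sum.inl v ∈ s
  · left
    ext i
    rw [mem_singleton]
    refine ⟨fun hi => ?_, fun hi => hi ▸ h⟩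
    by_contra hne
    have h3 : ({Sum.inl v, i} : Finset (Fin n ⊕ (Fin n × Bool))) ⊆ s := by
      intro x hx
      rw [mem_insert, mem_singleton] at hx
      rcases hx with rfl | rfl
      · exact h
      · exact hi
    have h4 := sum_le_sum_of_subset_of_nonneg (f := (circuitGame n hn).cost) h3
      fun x _ _ => ((circuitGame n hn).cost_pos x).le
    rw [sum_pair (Ne.symm hne)] at h4
    have h5 := (circuitGame n hn).cost_pos i
    have h6 : (circuitGame n hn).cost (Sum.inl v) = 1 := rfl
    have h7 : (circuitGame n hn).budget v = 1 := rfl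
    linarith
  · right
    intro i hi
    have h3 := h1 i hi
    rcases i with u | p
    · have : u = v := h3
      exact absurd (this ▸ hi) h
    · exact (mem_slots v p).2 h3

theorem oth_inl {n : ℕ} (b : ℕ → Bool) (v : Fin n) : oth (st b) v (Sum.inl v) = 0 := by
  unfold oth
  rw [card_eq_zero, filter_eq_empty_iff]
  intro j _ h
  obtain ⟨h1, h2⟩ := h
  unfold st at h2
  split_ifs at h2
  · exact inl_notMem _ _ h2
  · rw [mem_singleton] at h2
    exact h1 (Sum.inl_injective h2).symm

theorem oth_own {n : ℕ} (b : ℕ → Bool) (v : Fin n) (hv : 1 ≤ (v : ℕ)) (s : Bool) :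
    oth (st b) v (Sum.inr (v, s)) = if b (inp v s) then 1 else 0 := by
  have hlt := inp_lt hv s
  have hu : inp v s < n := hlt.trans v.2
  unfold oth
  have : (univ.filter fun j : Fin n => j ≠ v ∧ Sum.inr (v, s) ∈ (st b j)) =
      if b (inp v s) then {⟨inp v s, hu⟩} else ∅ := by
    ext j
    simp only [mem_filter, mem_univ, true_and]
    unfold st
    constructor
    · rintro ⟨h1, h2⟩
      split_ifs at h2 with h3
      · rw [mem_slots] at h2
        rcases h2 with h2 | h2
        · exact absurd h2.symm h1
        · have h4 : j = ⟨inp v s, hu⟩ := Fin.ext h2.symm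
          have h5 : b (inp v s) = true := by rw [h2]; exact h3
          rw [if_pos h5, mem_singleton]
          exact h4
      · simp at h2
    · intro h
      split_ifs at h with h3
      · rw [mem_singleton] at h
        subst h
        refine ⟨fun h => ?_, ?_⟩
        · have := congrArg Fin.val h
          simp only at this
          omega
        · simp only [h3, if_true]
          rw [mem_slots]
          exact Or.inr rfl
      · simp at h
  rw [this]
  split_ifs <;> simp

/-- the value of the cheap sites -/
theorem slots_lower {n : ℕ} (hn : 0 < n) (b : ℕ → Bool) (v : Fin n) (hv : 1 ≤ (v : ℕ))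
    (h : tgt b v = true) : 3 / 2 * (1 / 8 : ℝ) ^ (v : ℕ) ≤
      ∑ i ∈ slots v, (circuitGame n hn).rate i / ((oth (st b) v i : ℝ) + 1) := by
  have h3 : ({Sum.inr (v, false), Sum.inr (v, true)} : Finset (Fin n ⊕ (Fin n × Bool))) ⊆
      slots v := by
    intro x hx
    rw [mem_insert, mem_singleton] at hx
    rcases hx with rfl | rfl
    · exact (mem_slots _ _).2 (Or.inl rfl)
    · exact (mem_slots _ _).2 (Or.inl rfl)
  have h4 := sum_le_sum_of_subset_of_nonneg
    (f := fun i => (circuitGame n hn).rate i / ((oth (st b) v i : ℝ) + 1)) h3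
      fun x _ _ => div_nonneg ((circuitGame n hn).rate_pos x).le (by positivity)
  refine le_trans ?_ h4
  rw [sum_pair (by simp), oth_own b v hv, oth_own b v hv]
  have h5 : ∀ s, (circuitGame n hn).rate (Sum.inr (v, s)) = (1 / 8 : ℝ) ^ (v : ℕ) := fun s => rfl
  rw [h5, h5]
  have h6 : (0 : ℝ) < (1 / 8 : ℝ) ^ (v : ℕ) := by positivity
  generalize (1 / 8 : ℝ) ^ (v : ℕ) = w at h6 ⊢
  unfold tgt at h
  rcases hb : b (inp v false) <;> rcases hb' : b (inp v true) <;> rw [hb, hb'] at h <;>
    simp at h ⊢ <;> linarith

theorem slots_upper {n : ℕ} (hn : 0 < n) (b : ℕ → Bool) (v : Fin n) (hv : 1 ≤ (v : ℕ))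
    (h : tgt b v = false) : ∑ i ∈ slots v, (circuitGame n hn).rate i / ((oth (st b) v i : ℝ) + 1)
      ≤ 9 / 7 * (1 / 8 : ℝ) ^ (v : ℕ) := by
  have hb : b (inp v false) = true ∧ b (inp v true) = true := by
    unfold tgt at h
    rcases hb : b (inp v false) <;> rcases hb' : b (inp v true) <;> rw [hb, hb'] at h <;>
      simp at h ⊢
  have h0 : (0 : ℝ) < (1 / 8 : ℝ) ^ (v : ℕ) := by positivity
  -- a superset
  let A : Finset (Fin n × Bool) := {(v, false), (v, true)}
  let B : Finset (Fin n × Bool) := ((univ : Finset (Fin n)).filter fun u => v < u) ×ˢ univ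
  have hsub : (univ.filter fun p : Fin n × Bool => p.1 = v ∨ inp p.1 p.2 = (v : ℕ)) ⊆ A ∪ B := by
    rintro ⟨u, s⟩ hp
    rw [mem_filter] at hp
    simp only [mem_univ, true_and] at hp
    rw [mem_union]
    by_cases huv : u = v
    · left
      subst huv
      cases s <;> simp [A]
    · right
      rcases hp with hp | hp
      · exact absurd hp huv
      · simp only [B, mem_product, mem_filter, mem_univ, true_and, and_true]
        have hu : 1 ≤ (u : ℕ) := by
          by_contra hu
          have : (u : ℕ) = 0 := by omega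
          rw [this, inp_zero] at hp
          exact huv (Fin.ext (by omega))
        have := inp_lt hu s
        exact Fin.lt_def.2 (by omega)
  have e1 : ∑ i ∈ slots v, (circuitGame n hn).rate i / ((oth (st b) v i : ℝ) + 1) =
      ∑ p ∈ univ.filter (fun p : Fin n × Bool => p.1 = v ∨ inp p.1 p.2 = (v : ℕ)),
        (1 / 8 : ℝ) ^ (p.1 : ℕ) / ((oth (st b) v (Sum.inr p) : ℝ) + 1) := by
    unfold slots
    rw [sum_map]
    rfl
  rw [e1]
  have h1 := sum_le_sum_of_subset_of_nonneg
    (f := fun p : Fin n × Bool => (1 / 8 : ℝ) ^ (p.1 : ℕ) / ((oth (st b) v (Sum.inr p) : ℝ) + 1))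
    hsub fun x _ _ => by positivity
  refine h1.trans ?_
  have hdisj : Disjoint A B := by
    rw [disjoint_left]
    intro p hp hp'
    simp only [A, mem_insert, mem_singleton] at hp
    simp only [B, mem_product, mem_filter, mem_univ, true_and, and_true] at hp'
    rcases hp with rfl | rfl <;> exact absurd hp' (lt_irrefl _)
  rw [sum_union hdisj]
  have hA : ∑ p ∈ A, (1 / 8 : ℝ) ^ (p.1 : ℕ) / ((oth (st b) v (Sum.inr p) : ℝ) + 1) =
      (1 / 8 : ℝ) ^ (v : ℕ) := by
    simp only [A]
    rw [sum_pair (by simp), oth_own b v hv, oth_own b v hv, hb.1, hb.2]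
    simp only [if_true]
    push_cast
    ring
  have hB : ∑ p ∈ B, (1 / 8 : ℝ) ^ (p.1 : ℕ) / ((oth (st b) v (Sum.inr p) : ℝ) + 1) ≤
      2 / 7 * (1 / 8 : ℝ) ^ (v : ℕ) := by
    have h2 : ∑ p ∈ B, (1 / 8 : ℝ) ^ (p.1 : ℕ) / ((oth (st b) v (Sum.inr p) : ℝ) + 1) ≤
        ∑ p ∈ B, (1 / 8 : ℝ) ^ (p.1 : ℕ) := by
      refine sum_le_sum fun p _ => ?_
      have h9 : (0 : ℝ) ≤ (oth (st b) v (Sum.inr p) : ℝ) := Nat.cast_nonneg _
      exact div_le_self (by positivity) (by linarith)
    refine h2.trans ?_
    simp only [B]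
    rw [sum_product]
    simp only [sum_const, card_univ, Fintype.card_bool, nsmul_eq_mul, ← mul_sum]
    have h3 : ∑ u ∈ univ.filter (fun u : Fin n => v < u), (1 / 8 : ℝ) ^ (u : ℕ) ≤
        ∑ u ∈ Ico ((v : ℕ) + 1) n, (1 / 8 : ℝ) ^ u := by
      rw [← sum_image (f := fun u : ℕ => (1 / 8 : ℝ) ^ u) (g := fun u : Fin n => (u : ℕ))
        (s := univ.filter (fun u : Fin n => v < u)) (fun a _ c _ hac => Fin.ext hac)]
      refine sum_le_sum_of_subset_of_nonneg (fun x hx => ?_) fun x _ _ => by positivity
      rw [mem_image] at hx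
      obtain ⟨u, hu, rfl⟩ := hx
      rw [mem_filter] at hu
      rw [mem_Ico]
      exact ⟨Fin.lt_def.1 hu.2, u.2⟩
    have h4 := geom_sum_Ico_le_of_lt_one (x := (1 / 8 : ℝ)) (m := (v : ℕ) + 1) (n := n)
      (by norm_num) (by norm_num)
    rw [pow_succ] at h4
    have h5 : (1 / 8 : ℝ) ^ (v : ℕ) * (1 / 8) / (1 - 1 / 8) = 1 / 7 * (1 / 8 : ℝ) ^ (v : ℕ) := by
      ring
    rw [h5] at h4
    push_cast
    linarith
  rw [hA]
  linarith

theorem move_of_step {n : ℕ} (hn : 0 < n) {b b' : ℕ → Bool} (h : Step n b b') :
    (circuitGame n hn).Move (st b) (st b') := by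
  obtain ⟨u, hu, hun, hne, rfl⟩ := h
  let v : Fin n := ⟨u, hun⟩
  have hv : 1 ≤ (v : ℕ) := hu
  have h0 : (0 : ℝ) < (1 / 8 : ℝ) ^ (v : ℕ) := by positivity
  have e1 : (st (Function.update b u (tgt b u)) : Fin n → _) =
      Function.update (st b) v (if tgt b u then slots v else {Sum.inl v}) := by
    funext j
    by_cases hj : j = v
    · subst hj
      rw [Function.update_self]
      unfold st
      simp [v]
    · rw [Function.update_of_ne hj]
      unfold st
      rw [Function.update_of_ne (fun h => hj (Fin.ext h))]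
  have e2 : (st b : Fin n → _) = Function.update (st b) v (st b v) :=
    (Function.update_eq_self v _).symm
  have hl : ∑ i ∈ ({Sum.inl v} : Finset (Fin n ⊕ (Fin n × Bool))),
      (circuitGame n hn).rate i / ((oth (st b) v i : ℝ) + 1) = 7 / 5 * (1 / 8 : ℝ) ^ (v : ℕ) := by
    rw [sum_singleton, oth_inl]
    simp [circuitGame]
  have hsub : ∀ s, s ⊆ slots v →
      ∑ i ∈ s, (circuitGame n hn).rate i / ((oth (st b) v i : ℝ) + 1) ≤
      ∑ i ∈ slots v, (circuitGame n hn).rate i / ((oth (st b) v i : ℝ) + 1) := fun s hs =>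
    sum_le_sum_of_subset_of_nonneg hs
      fun x _ _ => div_nonneg ((circuitGame n hn).rate_pos x).le (by positivity)
  refine ⟨v, fun k hk => ?_, ?_, fun s hs => ?_, ?_⟩
  · rw [e1, Function.update_of_ne hk]
  · rw [e1, Function.update_self]
    split_ifs
    · exact feasible_slots hn v
    · exact feasible_inl hn v
  · rw [e1, payoff_update, payoff_update]
    cases ht : tgt b u with
    | true =>
      have h1 := slots_lower hn b v hv ht
      simp only [if_true]
      rcases feasible_cases hn v s hs with rfl | h2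
      · rw [hl]
        linarith
      · exact hsub s h2
    | false =>
      have h1 := slots_upper hn b v hv ht
      simp only [Bool.false_eq_true, if_false]
      rw [hl]
      rcases feasible_cases hn v s hs with rfl | h2
      · rw [hl]
      · have := hsub s h2
        linarith
  · rw [e1, payoff_update]
    conv_lhs => rw [e2]
    rw [payoff_update]
    cases ht : tgt b u with
    | true =>
      have h1 := slots_lower hn b v hv ht
      have h2 : b u = false := by
        rw [ht] at hne
        exact Bool.eq_false_iff.2 hne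
      have h3 : st b v = {Sum.inl v} := by
        unfold st
        simp [v, h2]
      rw [h3, hl]
      simp only [if_true]
      linarith
    | false =>
      have h1 := slots_upper hn b v hv ht
      have h2 : b u = true := by
        rw [ht] at hne
        simpa using hne
      have h3 : st b v = slots v := by
        unfold st
        simp [v, h2]
      rw [h3]
      simp only [Bool.false_eq_true, if_false]
      rw [hl]
      linarith

theorem feasible_st {n : ℕ} (hn : 0 < n) (b : ℕ → Bool) (j : Fin n) :
    (circuitGame n hn).Feasible j (st b j) := by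
  unfold st
  split_ifs
  · exact feasible_slots hn j
  · exact feasible_inl hn j

end game

/-- **Budgeted sharing games with best-response paths of exponential length.** There is a constant
`c > 0` such that for every `N` there is a budgeted sharing game with `n` agents and `m` sites,
`n + m ≥ N`, that has a best-response path of length at least `2 ^ (c (n + m))`. -/
theorem result : ∃ c : ℝ, 0 < c ∧ ∀ N : ℕ, ∃ (n m : ℕ) (U H : Type) (_ : Fintype U)
    (_ : DecidableEq U) (_ : Fintype H) (_ : DecidableEq H) (G : Game U H) (L : ℕ)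
    (S : ℕ → U → Finset H), Fintype.card U = n ∧ Fintype.card H = m ∧ N ≤ n + m ∧
    (2 : ℝ) ^ (c * ((n : ℝ) + m)) ≤ L ∧ G.IsPath L S := by
  refine ⟨1 / 100, by norm_num, fun N => ?_⟩
  obtain ⟨k, hk2, hkN⟩ : ∃ k : ℕ, 2 ≤ k ∧ N ≤ k := ⟨max 2 N, le_max_left _ _, le_max_right _ _⟩
  have hn : 0 < 6 * k + 1 := Nat.succ_pos _
  obtain ⟨b0, hb0, hg0⟩ := exists_good k 0 false (fun _ => true)
  obtain ⟨L, b1, hL, hp, _, _⟩ := run (n := 6 * k + 1) k 0 true b0 (by omega)
    (by rw [hb0 _ (by omega)]) hg0
  obtain ⟨β, _, hβ⟩ := hp.exists_seq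
  refine ⟨6 * k + 1, 6 * k + 1 + (6 * k + 1) * 2, Fin (6 * k + 1),
    Fin (6 * k + 1) ⊕ (Fin (6 * k + 1) × Bool), inferInstance, inferInstance, inferInstance,
    inferInstance, circuitGame (6 * k + 1) hn, L, fun l => st (β l), Fintype.card_fin _, ?_,
    by omega, ?_, fun l _ j => feasible_st hn _ j, fun l hl => move_of_step hn (hβ l hl)⟩
  · simp
  · have h1 : (2 : ℝ) ^ (1 / 100 * (((6 * k + 1 : ℕ) : ℝ) + ((6 * k + 1 + (6 * k + 1) * 2 : ℕ) : ℝ)))
        ≤ (2 : ℝ) ^ ((k - 1 : ℕ) : ℝ) := by
      apply Real.rpow_le_rpow_of_exponent_le (by norm_num)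
      have h2 : (2 : ℝ) ≤ k := by exact_mod_cast hk2
      have h3 : ((k - 1 : ℕ) : ℝ) = (k : ℝ) - 1 := by
        rw [Nat.cast_sub (by omega)]
        simp
      rw [h3]
      push_cast
      linarith
    refine h1.trans ?_
    rw [Real.rpow_natCast]
    have h4 : 2 ^ (k - 1) ≤ L := by
      have h5 : 2 ^ k = 2 * 2 ^ (k - 1) := by
        rw [← pow_succ']
        congr 1
        omega
      have h6 : 1 ≤ 2 ^ (k - 1) := Nat.one_le_two_pow
      omega
    exact_mod_cast h4

end Pool.Agent.Results.MP_2a1065_lc.ExponentialPaths
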